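import Pool.Agent.Helper23.MC.Goals4

/-!
# Prescribed clusters of primes in deserts of record size, with absolute constants

Complement to `Pool/Agent/Helper23/MC/Goals3.lean`.  There the constant `c` in the size
`c R(x)` of the desert depends on the number of elements of `H`, because of the choice of the class
(`StmtRCH`).  Here `StmtRCH` is proved with an absolute constant (`StmtRCH2`), and the number of the
primes in the cluster is `> c log K` with an absolute constant (`StmtMT2`).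

Main theorem (`StmtMM2`): there is `c > 0` such that for every `K ≥ 1`, all large `x` and EVERY
admissible set `H` of `K` integers in `[0, c R(x)]`, `R(x) = log x (log_2 x)^2 log_4 x/(log_3 x)^2`,
there are at least `x^(1 - 1/(log log x)^2)` integers `m ≤ x` such that all primes of
`[m, m + c R(x)]` are of the form `m + h`, `h ∈ H`, and there are more than `c log K` of them.
-/

set_option autoImplicit false

open Finset Filter Topology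

open scoped Classical

namespace Pool.Agent.Helper57.MT

open Pool.Agent.Helper88.PP (pr Rg om Sf SS uu vv ee LA VV QQ cost)
open Pool.Agent.Helper88.RR (gg ab TB WB nz wb DB Db VM)
open Pool.Agent.Helper88.GM (NI XI gB In)
open Pool.Agent.Helper88.CG (tw pw th ic DS sg CN qE mE)
open Pool.Agent.Helper88.CR (Rec)
open Pool.Agent.Helper23.MC (Ad NH VH TH kH rs Tj kj ZZ)

/-! ## The class -/

/-- PACKET TT.  Harmonic sums over the integers prime to `N`.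
Proof.  Every `m ≤ X` prime to `N` is a product of prime powers, with primes `≤ X` not dividing
`N`, so the sum is at most `∏_{p ≤ X, p ∤ N} (1 - 1/p)⁻¹` (Mathlib
`EulerProduct`/`Nat.smoothNumbers`, `prod_primesBelow..`, or induction over the set of the primes).
All primes dividing `N` are `≤ N ≤ X`, so this is
`∏_{p ≤ X} (1 - 1/p)⁻¹ · ∏_{p ∣ N} (1 - 1/p) = ∏_{p ≤ X} (1 - 1/p)⁻¹ · φ(N)/N`, and
`∏_{p ≤ X} (1 - 1/p)⁻¹ ≤ C log X` by Mertens (`primorial X/φ(primorial X)`: `LG.StmtPH`, proved in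
the library, see `Pool/Agent/Helper*/LG`; or `∏ (1-1/p)⁻¹ ≤ exp(∑ 1/p + ∑ 1/p²·2)` and
`∑_{p ≤ X} 1/p ≤ log log X + C`). -/
def StmtTT : Prop := ∃ C : ℝ, 1 ≤ C ∧ ∀ X N : ℕ, 2 ≤ X → 1 ≤ N → N ≤ X →
  ∑ m ∈ (Icc 1 X).filter (fun m => Nat.Coprime m N), 1 / (m : ℝ)
    ≤ C * ((Nat.totient N : ℝ) / N) * Real.log X

/-- PACKET ZA2 (may assume `StmtTT`).  `ZZ` in progressions, with the right density, for squarefree
moduli.
Proof.  (i) Multiples of the primes of `Bd`: at most `#Bd Y/t` (a prime `p > t` has at most `Y/p`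
multiples in `[1, Y]`).  (ii) The other elements have no prime factor in `(t, w]`; as
`Y ≤ w (log w)^4 < w²`, such an `h` is `t`-smooth or `h = m p`, `p > w` prime,
`m ≤ Y/w ≤ (log w)^4`.  Let `g = gcd(h', e)`, `e = g e₁`.  As `p > w > e` is prime to `e`,
`m p ≡ h' (e)` implies `gcd(m, e) = g`, i.e. `m = g m'`, `gcd(m', e₁) = 1` (`e` squarefree; only
`g ∣ m` and `gcd(m', e₁) = 1` are needed), and then `p` is in one class modulo `e₁`, which is a unit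
class.  Brun-Titchmarsh (`Pool.Agent.Helper27.LG.bg : LG.StmtBG`, with `d = e₁`,
`N = ⌊Y/(m e₁)⌋ + 1`; the at most one prime with `t = 0` is harmless): the number of these
`p ≤ Y/m` is at most `C (Y/m)/(φ(e₁) log w)`, because `Y/(m e₁) ≥ w/(log w)^3 ≥ √w`.  Sum over
`m = g m'`: `≤ C Y/(g φ(e₁) log w) ∑_{m' ≤ (log w)^4, (m', e₁) = 1} 1/m'
≤ C C' Y/(g φ(e₁) log w) · (φ(e₁)/e₁) · 4 log log w = 4 C C' Y log log w/(e log w)` by `StmtTT` with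
`N = e₁ ≤ (log w)^3 ≤ X = ⌊(log w)^4⌋`. -/
def StmtZA2 : Prop := ∃ C : ℝ, 1 ≤ C ∧ ∃ w0 : ℕ, ∀ w Y t e h' : ℕ, w0 ≤ w → w ≤ Y →
  (Y : ℝ) ≤ w * Real.log w ^ 4 → 2 ≤ t → t ≤ w → Squarefree e → (e : ℝ) ≤ Real.log w ^ 3 →
  ∀ Bd : Finset ℕ, (∀ p ∈ Bd, t < p) →
  (((ZZ Y t w Bd).filter (fun h => h ≡ h' [MOD e])).card : ℝ)
    ≤ C * (Y * Real.log (Real.log w) / (e * Real.log w))
      + (((Icc 1 Y).filter (fun h : ℕ => ∀ p, p.Prime → p ∣ h → p ≤ t)).card : ℝ)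
      + Bd.card * (Y / t)

/-- the classes modulo `l` which are allowed: all `h ∈ H` survive -/
def Al (H : Finset ℕ) (l : ℕ) : Finset ℕ := (range l).filter (fun c => ∀ h ∈ H, ¬ l ∣ c + h)

/-- `h` is congruent to an element of `H` modulo `l` -/
def Ht (H : Finset ℕ) (l h : ℕ) : Prop := ∃ h' ∈ H, h ≡ h' [MOD l]

/-- the probability that `h` survives, for a random allowed class modulo `l`; it is a function of
`h` modulo `l` -/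
noncomputable def sv (H : Finset ℕ) (l h : ℕ) : ℝ :=
  if Ht H l h then 1 else 1 - 1 / ((l : ℝ) - ((H.image (fun i => i % l)).card : ℝ))

/-- the survival probability for the primes `≤ K1` except `p` -/
noncomputable def Fs (H : Finset ℕ) (K1 p h : ℕ) : ℝ :=
  ∏ l ∈ ((Icc 1 K1).filter Nat.Prime).erase p, sv H l h

/-- the squarefree `e ≤ L²` with prime factors in `(K1, L]` -/
noncomputable def SE (K1 L : ℕ) : Finset ℕ :=
  (Icc 1 (L ^ 2)).filter (fun e => Squarefree e ∧ ∀ l, l.Prime → l ∣ e → K1 < l ∧ l ≤ L)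

/-- PACKET SV1.  Elementary properties of `sv`, `l` prime, `H` not hitting all classes modulo `l`,
`H` not empty.
Proof.  With `ν = #(H mod l)`, `1 ≤ ν ≤ l - 1`: `sv = 1` on the `ν` classes of `H` and
`1 - 1/(l - ν)` on the `l - ν` other ones; the sum over a full period is
`ν + (l - ν) - 1 = l - 1`.  Fourth: if `h` is not in a class of `H`,
`1 - 1/(l - ν) ≤ 1 - 1/l`; otherwise `1 ≤ (1 - 1/l)(1 + 2/l)` for `l ≥ 2`.  Last: `#(Al H l) = l - ν`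
(the map `c ↦ (l - c) % l` is a bijection of `range l`), and `(l - h % l) % l ∈ Al H l` iff
`h ≢ h' (l)` for all `h' ∈ H`. -/
def StmtSV1 : Prop := ∀ (H : Finset ℕ) (l : ℕ), l.Prime → H.Nonempty →
  (∃ a : ℕ, ∀ h ∈ H, ¬ h ≡ a [MOD l]) →
  (∀ h, 0 ≤ sv H l h ∧ sv H l h ≤ 1) ∧ (∀ h, sv H l (h % l) = sv H l h) ∧
  (∑ a ∈ range l, sv H l a = l - 1) ∧
  (∀ h, sv H l h ≤ (1 - 1 / (l : ℝ)) * (if Ht H l h then 1 + 2 / (l : ℝ) else 1)) ∧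
  (Al H l).Nonempty ∧
  ∀ h, 1 - (if (l - h % l) % l ∈ Al H l then 1 / ((Al H l).card : ℝ) else 0) = sv H l h

/-- PACKET ZT (the rare `h`: many small primes divide `∏ (h - h')`).
Proof.  For `h ∉ H`, `∏_{l ≤ L, ∃ h' ∈ H, l ∣ h - h'} (1 + 2/√l) ≤ ∏_{h' ∈ H} ∏_{l ∣ |h - h'|, l ≤ L}
(1 + 2/√l) ≤ ∑_{h' ∈ H} ∏_{l ∣ |h - h'|, l ≤ L} (1 + 2/√l)^K` (`∏ f ≤ ∑ f^K` for `K` numbers
`f ≥ 1`).  For fixed `h'`, `m = |h - h'| ≥ 1`, the last product is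
`∑_{e ∣ m} g(e)` over the squarefree `e` with prime factors `≤ L`, `g(e) = ∏_{l ∣ e} ((1 + 2/√l)^K - 1)
≤ ∏_{l ∣ e} C_K/√l`, and for every `e ≥ 1` at most `Y/e` of the `h ≤ Y`, `h ≠ h'`, have
`e ∣ h - h'` (at most `(h'-1)/e` below and `(Y-h')/e` above `h'`).  So the sum over `h` is at most
`K Y ∑_e g(e)/e ≤ K Y ∏_l (1 + C_K l^(-3/2)) ≤ C Y`. -/
def StmtZT : Prop := ∀ K : ℕ, ∃ C : ℝ, 1 ≤ C ∧ ∀ Y L : ℕ, ∀ H : Finset ℕ, H ⊆ Icc 1 Y →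
  H.card = K →
  ∑ h ∈ Icc 1 Y \ H, ∏ l ∈ (Icc 1 L).filter Nat.Prime,
      (if Ht H l h then 1 + 2 / √(l : ℝ) else 1) ≤ C * Y

/-- PACKET ZP (pointwise bound; may assume `StmtSV1`).
Proof.  Split the product over the primes `l ≤ t`, `l ≠ p` (all factors `≥ 0`) at `K²` and use the
fourth part of `StmtSV1` for `l > K²`.  `∏_{K² < l ≤ t, l ≠ p} (1 - 1/l) ≤ 2 ∏_{K² < l ≤ t} (1 - 1/l)`
(`(1 - 1/p)⁻¹ ≤ 2`); the factors `1 + 2/l` with `l = p` may be added.  The primes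
`l > L = ⌊log w⌋` with `Ht H l h` divide `Π = ∏_{h' ∈ H} |h - h'| ≥ 1`, `Π ≤ Y^K`, so there are at most
`K log Y/log L ≤ 2K log w/log L` of them, and their factors are together at most
`exp(2/L · 2K log w/log L) ≤ 2` for large `w`. -/
def StmtZP : Prop := ∀ K : ℕ, 1 ≤ K → ∃ w0 : ℕ, ∀ w p Y t : ℕ, w0 ≤ w → p.Prime →
  (Y : ℝ) ≤ w * Real.log w ^ 4 → t ≤ w → Real.log w ^ 4 ≤ t →
  ∀ H : Finset ℕ, H ⊆ Icc 1 Y → H.card = K →
  (∀ l : ℕ, l.Prime → ∃ a : ℕ, ∀ h ∈ H, ¬ h ≡ a [MOD l]) → ∀ h ∈ Icc 1 Y, h ∉ H →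
  ∏ l ∈ ((Icc 1 t).filter Nat.Prime).erase p, sv H l h
    ≤ 4 * (∏ l ∈ (Ioc (K ^ 2) t).filter Nat.Prime, (1 - 1 / (l : ℝ))) *
      (Fs H (K ^ 2) p h * ∏ l ∈ (Ioc (K ^ 2) ⌊Real.log w⌋₊).filter Nat.Prime,
        (if Ht H l h then 1 + 2 / (l : ℝ) else 1))

/-- PACKET ZG (expansion).
Proof.  The product over the `l ∈ (K1, L]` with `Ht H l h` of `1 + 2/l` is
`∑_T ∏_{l ∈ T} 2/l` over the sets `T` of these primes (`Finset.prod_one_add` or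
`Finset.prod_add`), `e = ∏ T` (injective).  The `e ≤ L²` give the first sum.  For `e > L²`,
`∏_{l ∈ T} 2/l ≤ (1/L) ∏_{l ∈ T} 2/√l`, and the sum of this over all `T` is
`(1/L) ∏ (1 + 2/√l)`. -/
def StmtZG : Prop := ∀ (K1 L h : ℕ) (H : Finset ℕ), 1 ≤ L →
  ∏ l ∈ (Ioc K1 L).filter Nat.Prime, (if Ht H l h then 1 + 2 / (l : ℝ) else 1)
    ≤ ∑ e ∈ SE K1 L, (2 : ℝ) ^ e.primeFactors.card / e *
        (if ∀ l, l.Prime → l ∣ e → Ht H l h then 1 else 0)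
      + 1 / L * ∏ l ∈ (Icc 1 L).filter Nat.Prime, (if Ht H l h then 1 + 2 / √(l : ℝ) else 1)

/-- PACKET ZF (counting by classes; may assume `StmtSV1`).
Proof.  `M₁ = primorial K1`.  `Fs H K1 p h ≥ 0` depends only on `h` modulo `M₁`.  If `Ht H l h` for all
primes `l ∣ e`, choose `f(l) ∈ H` with `h ≡ f(l) (l)`; for every `f` (there are `K^ω(e)`) this is one
class modulo `e`, and together with the class `a` modulo `M₁` one class modulo `M₁ e` (`M₁` and `e` are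
coprime because the primes of `e` are `> K1`).  So the left side is at most
`∑_f ∑_{a < M₁} Fs a · N`. -/
def StmtZF : Prop := ∀ (H Z : Finset ℕ) (K1 p e : ℕ) (N : ℝ), H.Nonempty →
  (∀ l : ℕ, l.Prime → ∃ a : ℕ, ∀ h ∈ H, ¬ h ≡ a [MOD l]) → Squarefree e →
  (∀ l : ℕ, l.Prime → l ∣ e → K1 < l) →
  (∀ c : ℕ, ((Z.filter (fun h => h ≡ c [MOD primorial K1 * e])).card : ℝ) ≤ N) →
  ∑ h ∈ Z, Fs H K1 p h * (if ∀ l, l.Prime → l ∣ e → Ht H l h then 1 else 0)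
    ≤ (H.card : ℝ) ^ e.primeFactors.card * (∑ a ∈ range (primorial K1), Fs H K1 p a) * N

/-- PACKET ZM (the mean of `Fs`; may assume `StmtSV1`).
Proof.  Chinese remainder theorem: the sum over `a < ∏ l` of `∏ f_l(a mod l)` is
`∏ ∑_{a < l} f_l(a)` (induction over the set of the primes `l ≤ K1`), with `f_l = sv H l`, sum `l - 1`,
for `l ≠ p` and `f_p = 1`, sum `p`.  So it is `M₁ ∏_{l ≤ K1, l ≠ p} (1 - 1/l)`, and
`(1 - 1/p)⁻¹ ≤ 2`. -/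
def StmtZM : Prop := ∀ (H : Finset ℕ) (K1 p : ℕ), H.Nonempty → p.Prime →
  (∀ l : ℕ, l.Prime → ∃ a : ℕ, ∀ h ∈ H, ¬ h ≡ a [MOD l]) →
  ∑ a ∈ range (primorial K1), Fs H K1 p a
    ≤ 2 * (primorial K1 : ℝ) * ∏ l ∈ (Icc 1 K1).filter Nat.Prime, (1 - 1 / (l : ℝ))

/-- PACKET ZN (numerical sums).
Proof.  `∑_e (2K)^ω(e)/e² ≤ ∏_{K² < l ≤ L} (1 + 2K/l²) ≤ exp(2K ∑_{l > K²} 1/l²) ≤ exp(2K/K²) ≤ e² ≤ 8`
(`∑_{n > N} 1/n² ≤ 1/N`, telescoping).  `∑_e (2K)^ω(e)/e ≤ ∏_{l ≤ L} (1 + 2K/l) ≤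
exp(2K ∑_{l ≤ L} 1/l)`, and `∑_{l ≤ L} 1/l ≤ ∑_{n ≤ L} 1/n ≤ 1 + log L` is not enough; use Mertens,
`∑_{l ≤ L} 1/l ≤ log log L + C` (`LG.StmtME` with `Y = 2`, see `Pool/Agent/Helper*/LG`; or
`om`-bounds `Pool.Agent.Helper69.LG.me`, `Pool.Agent.Helper37.PP.mp`). -/
def StmtZN : Prop := ∀ K : ℕ, 1 ≤ K → ∃ C : ℝ, 1 ≤ C ∧ ∀ L : ℕ, 3 ≤ L →
  ∑ e ∈ SE (K ^ 2) L, (2 * (K : ℝ)) ^ e.primeFactors.card / (e : ℝ) ^ 2 ≤ 8 ∧
  ∑ e ∈ SE (K ^ 2) L, (2 * (K : ℝ)) ^ e.primeFactors.card / (e : ℝ) ≤ C * Real.log L ^ (2 * K)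

/-- PACKET ZS2 (may assume `StmtZA2`, `StmtZT`, `StmtZP`, `StmtZG`, `StmtZF`, `StmtZM`, `StmtZN`,
`StmtSV1`).  The mean number of survivors outside of `H`, with an ABSOLUTE constant.
Proof.  `L = ⌊log w⌋`, `M₁ = primorial (K²) ≤ log w` for large `w`, `Π = ∏_{K² < l ≤ t} (1 - 1/l)`.
`StmtZP` and `StmtZG`, summed over `h ∈ ZZ`, `h ∉ H`, with `0 ≤ Fs ≤ 1` and `StmtZT` for the last part:
the sum is at most `4 Π (∑_{e ∈ SE} 2^ω(e)/e ∑_h Fs(h) [..] + C_K Y/L)`.  For `e ∈ SE`, `M₁ e` is squarefree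
and `≤ log w · L² ≤ (log w)^3`, so `StmtZA2` and `StmtZF` with
`N = C Y log log w/(e M₁ log w) + E₀`, `E₀ = Y/(log w)^3 + (K+1) log w · Y/t ≤ (K+2) Y/(log w)^3`, give
`∑_h Fs(h) [..] ≤ K^ω(e) · 2 M₁ ∏_{l ≤ K²} (1 - 1/l) · N` (`StmtZM`).  As
`∏_{l ≤ K²} (1 - 1/l) Π = ∏_{l ≤ t} (1 - 1/l) ≤ C'/log t` (`Pool.Agent.Helper73.RR.prod_le`), the main part
is at most `8 (C'/log t) C (Y log log w/log w) ∑_e (2K)^ω(e)/e² ≤ 64 C C' Y log log w/(log w log t)`.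
The part with `E₀`: `8 (C'/log t) M₁ (K+2) Y/(log w)^3 · C_K (log L)^(2K)`, and
`4 Π C_K Y/L ≤ C'_K Y/(log t log w)` (`Π ≤ M₁ ∏_{l ≤ t} (1 - 1/l)`): both are
`≤ Y log log w/(log w log t)` for large `w`. -/
def StmtZS2 : Prop := ∃ C : ℝ, 1 ≤ C ∧ ∀ K : ℕ, 1 ≤ K → ∃ w0 : ℕ, ∀ w p Y t : ℕ, w0 ≤ w →
  p.Prime → w ≤ Y → (Y : ℝ) ≤ w * Real.log w ^ 4 → 2 ≤ t → t ≤ w → Real.log w ^ 4 ≤ t →
  (((Icc 1 Y).filter (fun h : ℕ => ∀ p, p.Prime → p ∣ h → p ≤ t)).card : ℝ)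
    ≤ Y / Real.log w ^ 3 →
  ∀ H : Finset ℕ, H ⊆ Icc 1 Y → H.card = K →
  (∀ l : ℕ, l.Prime → ∃ a : ℕ, ∀ h ∈ H, ¬ h ≡ a [MOD l]) →
  ∀ Bd : Finset ℕ, (∀ p ∈ Bd, t < p) → (Bd.card : ℝ) ≤ (K + 1) * Real.log w →
  ∑ h ∈ (ZZ Y t w Bd).filter (fun h => h ∉ H),
      ∏ l ∈ ((Icc 1 t).filter Nat.Prime).erase p, sv H l h
    ≤ C * (Y * Real.log (Real.log w) / (Real.log w * Real.log t))

/-- PACKET RCH2 (may assume `MC.StmtRNZ`, `MC.StmtAVG`, `StmtZS2`, `StmtSV1`).  THE CHOICE OF THE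
CLASS, WITH PRESCRIBED SURVIVORS `H` AND AN ABSOLUTE CONSTANT.
Proof.  Let `t` be as in `MC.StmtRNZ`, `Bd` the primes of `(t, w]` which are `p` or divide an element
of `H`; every `h ≤ Y` has at most `log Y/log t ≤ log w` prime factors `> t`, so
`#Bd ≤ 1 + K log w ≤ (K+1) log w`.  `MC.StmtAVG` with `L` the primes `≤ w` except `p`
(`∏ L = primorial w/p`), `Z = (Icc 1 Y).filter (· ∉ H)`, `A l = Al H l` if `l ≤ t` or `l ∈ Bd`, `{0}`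
otherwise (then `l ∤ h` for all `h ∈ H`).  So all `h ∈ H` are survivors.  The product in the average is
`0` if `l ∣ h` for some `l ∈ L`, `t < l`, `l ∉ Bd` (the factor is `1 - 1`), so only the
`h ∈ ZZ Y t w Bd` contribute; for these it is `∏_{l ≤ t, l ≠ p} sv H l h · ∏_{l ∈ Bd, l ≠ p} sv H l h`
times factors `≤ 1`, at most `∏_{l ≤ t, l ≠ p} sv H l h` (`StmtSV1`).  `StmtZS2` bounds the number of the
survivors outside of `H` by `C Y log log w/(log w log t)`, and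
`1/log t ≤ C' log log w/(log w log log log w)`.  Add the `K` points of `H`
(`K ≤ Y (log_2 w)²/((log w)² log_3 w)` for large `w`, as `Y ≥ w log w`). -/
def StmtRCH2 : Prop := ∃ C : ℝ, 1 ≤ C ∧ ∀ K : ℕ, 1 ≤ K → ∃ w0 : ℕ, ∀ w p Y : ℕ, w0 ≤ w →
  p.Prime → p ≤ w → w * Real.log w ≤ Y → (Y : ℝ) ≤ w * Real.log w ^ 4 →
  ∀ H : Finset ℕ, H ⊆ Icc 1 Y → H.card = K →
  (∀ l : ℕ, l.Prime → ∃ a : ℕ, ∀ h ∈ H, ¬ h ≡ a [MOD l]) →
  ∃ b : ℕ, b < primorial w / p ∧ (∀ h ∈ H, Nat.Coprime (b + h) (primorial w / p)) ∧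
  (((Icc 1 Y).filter (fun h => Nat.Coprime (b + h) (primorial w / p))).card : ℝ)
    ≤ C * (Y * Real.log (Real.log w) ^ 2 /
        (Real.log w ^ 2 * Real.log (Real.log (Real.log w))))

/-! ## The Maynard weight -/

/-- PACKET NL1 (`MC.StmtNL` for `#H = 1`).
Proof.  `H = {j}`, `H.erase j` is empty, there is one function on it.  `Tj` consists of it (`TH` is not
empty: label `1`, cost `1 ≤ E/32`), `kj = ∑_{s ∈ SS z (z^(E/64))} 1/(φ(s)(E + β ee z s)) = I1`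
(`ee z s ≤ E/64 ≤ E/32` for `s < z^(E/64)`), empty products are `1`, and `1 ≤ z^(E/32)`. -/
def StmtNL1 : Prop := ∀ E z β : ℕ, 64 ≤ E → 2 ≤ z → β ≤ E → ∀ H : Finset ℕ, H.card = 1 →
  ∀ j ∈ H, ∀ I1 C : ℝ,
  I1 = ∑ s ∈ SS z (z ^ (E / 64)), 1 / ((Nat.totient s : ℝ) * (E + β * ee z s)) →
  I1 ≤ C → 1 ≤ C →
  Ad C E z (H.erase j) (Tj H j (TH E z H)) (kj H j (TH E z H) (kH E z β H)) ∧
  I1 ^ 2 ≤ NH (H.erase j) (Tj H j (TH E z H)) (kj H j (TH E z H) (kH E z β H))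

/-- PACKET MT2 (may assume `MC.StmtIJ`, `MC.StmtNU`, `MC.StmtNL`, `StmtNL1`).  MAYNARD'S LOWER BOUND,
for every `K ≥ 1`.
Proof.  As `MC.StmtMT`, with `β = ⌈C₁ K log(K + 2)⌉ + 200` and all `E ≥ E0` (`β ≤ E`, `K ≤ E/64`, ..).
`NH H ≤ I2^K` (`StmtNU`).  `K ≥ 2`: `(K-1) J ≤ ⌊E/64⌋ I2/2` (with `⌊E/64⌋ ≥ E/128`, `StmtIJ`) is implied
by `256 (C/c) K log(1 + β) ≤ β`, which holds for every `K ≥ 1` if `C₁` is large
(`log(1 + β) ≤ log C₁ + 3 log(K + 2) + 6`); so `NH (H.erase j) ≥ I1² I2^(K-1)/2` (`StmtNL`; also for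
`K = 1`, `StmtNL1`).  Hence
`(c3/E) ∑_j NH (H.erase j) ≥ c3 K I1² I2^(K-1)/(2E) ≥ (c3 K I1²/(2 E I2)) NH H ≥
c3 (c²/(2C)) (K/β) log(β/130)² NH H`; and `β ≤ C' K log(K + 2)`, `log(β/130) ≥ c' log(K + 2)` for
all `K ≥ 1` (`β ≥ 200` and `β ≥ C₁ K log (K+2)`, `C₁ ≥ 130`). -/
def StmtMT2 : Prop := ∀ c3 : ℝ, 0 < c3 → ∃ c5 : ℝ, 0 < c5 ∧ ∀ K : ℕ, 1 ≤ K →
  ∃ (β : ℕ) (C : ℝ), 1 ≤ C ∧ ∃ E0 : ℕ, ∀ E z : ℕ, E0 ≤ E → E ≤ z → ∀ H : Finset ℕ, H.card = K →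
  Ad 1 E z H (TH E z H) (kH E z β H) ∧
  (∀ j ∈ H, Ad C E z (H.erase j) (Tj H j (TH E z H)) (kj H j (TH E z H) (kH E z β H))) ∧
  1 / (2 * (E : ℝ)) ^ (2 * K) ≤ NH H (TH E z H) (kH E z β H) ∧
  c5 * Real.log (K + 2) * NH H (TH E z H) (kH E z β H) ≤
    c3 / E * ∑ j ∈ H, NH (H.erase j) (Tj H j (TH E z H)) (kj H j (TH E z H) (kH E z β H))

/-! ## The conclusion -/

/-- PACKET FRM2 (may assume `MC.StmtSV`, `StmtKV`, `StmtLVQ`, `StmtVJ`, `StmtSUV`, `StmtPMA`,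
`CR.StmtPJ`, `CR.StmtOM`, `StmtMT2`, `StmtRCH2`).  The windows.
Proof.  As `MC.StmtFRM`, where now the constant `c` in `StmtPMA` does not depend on `K`:
`A0` from `StmtLVQ`, `A = max A0 3`, `A'` from `StmtPMA`, `cJ` from `CR.StmtPJ`
(`Pool.Agent.Helper88.CR.mPJ`), `c3 = min(1, cJ/(A' A))/4`; `c5` from `StmtMT2`; `C` from
`StmtRCH2`; `c` (in `StmtPMA`) such that `C A' A c ≤ c1` (`StmtKV`); finally the constant of the
theorem is `min c (c5/2)`.  Given `K`: `β, C'` from `StmtMT2`, `k = ⌊(c5/2) log K⌋`,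
`η ≤ min(1/4, c3/4, c5/(4K))`.  Parameters from `StmtPMA` (with `C ≥ 64`, `≥ C_J`), `p` from
`StmtPJ`, `q = primorial w/p ∣ QQ x`, `b` from `StmtRCH2`, `P` the `h ≤ Y`, `h ∉ H`, with
`(b+h, q) = 1`, `X = XI (x/32) x q`, `o = om y z`, `T = TH E z H`, `κ = kH E z β H`,
`Wt(n) = W1 E z y P n ^ 2 * VH y z H T κ n ^ 2`, `D = D1`, `Nn = NH H T κ`, `ε = exp(-c E)`.
`∑ Wt ≤ X (D o^K Nn + ε)` (`StmtSV`), `∑ Wt #{h ∈ P : n + h prime} ≤ X (η D o^K Nn + ε)` (`StmtKV`).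
For `j ∈ H`: `pw x (n+j) = 0` unless `n + j` is prime, and then `VH H = VH (H.erase j) ..`
(`StmtVJ`), so by `StmtLVQ` and `∑_n pw x (n+j) ≥ cJ X log w/log x ≥ 4 c3 X o/E`
`∑ pw x (n+j) Wt ≥ D Nj o^(K-1) ((1-η) 4 c3 - η) X o/E - ε X ≥ X (2 c3/E) D o^K Nj - ε X`; the sum over
`j` is `≥ X (2 c5 log(K+2) D o^K Nn - K ε)`.  So
`∑ Wt (∑_{j ∈ H} pw x (n+j) - k - K #{h ∈ P : n+h prime}) ≥
X (D o^K Nn (2 c5 log(K+2) - (c5/2) log K - K η) - (2K + k) ε) ≥ X c5 o^K Nn/2`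
(`log(K+2) ≥ 1`, `K η ≤ c5/4`; `ε` is much smaller than `o^K Nn`).  If the bracket is positive at
`n`, no `h ∈ P` has `n + h` prime (the bracket is `≤ K - K` otherwise) and more than `k`, i.e. more
than `(c5/2) log K`, of the `h ∈ H` have `n + h` prime.  The rest as in `MC.StmtFRM`. -/
def StmtFRM2 : Prop := ∃ c : ℝ, 0 < c ∧ ∀ K : ℕ, 1 ≤ K → ∃ x0 : ℕ, ∀ x : ℕ, x0 ≤ x →
  ∃ Y : ℕ, c * Rec x ≤ Y ∧ (Y : ℝ) ≤ Real.log x ^ 2 ∧ ∀ H : Finset ℕ, H ⊆ Icc 1 Y →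
  H.card = K → (∀ l : ℕ, l.Prime → ∃ a : ℕ, ∀ h ∈ H, ¬ h ≡ a [MOD l]) →
  ∃ N : Finset ℕ, (∀ n ∈ N, n ≤ x ∧ (∀ h ∈ Icc 1 Y, (n + h).Prime → h ∈ H) ∧
    c * Real.log K < ((H.filter (fun h => (n + h).Prime)).card : ℝ)) ∧
  x * Real.exp (-(Real.log x / (16 * Real.log (Real.log x) ^ 2))) ≤ N.card

/-- PACKET MM02 (may assume `StmtFRM2`).  The real form, with a slightly better exponent than in the
final theorem.
Proof.  `StmtFRM2` (constant `c₀`) at `x' = ⌊x/2⌋`, `m = n + 1`, `H' = H + 1`; `c = c₀/16`,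
`Rec x' ≥ Rec x/8`, so `c Rec x + 1 ≤ c₀ Rec x' ≤ Y`, as in `Pool/Agent/Helper88/CS/Fin.lean`. -/
def StmtMM02 : Prop := ∃ c : ℝ, 0 < c ∧ ∀ K : ℕ, 1 ≤ K → ∃ X : ℝ, ∀ x : ℝ, X ≤ x →
  ∀ H : Finset ℕ, H.card = K → (∀ h ∈ H, (h : ℝ) ≤ c * Rec x) →
  (∀ l : ℕ, l.Prime → ∃ a : ℕ, ∀ h ∈ H, ¬ h ≡ a [MOD l]) →
  x ^ (1 - 1 / (4 * Real.log (Real.log x) ^ 2))
    ≤ ({m : ℕ | (m : ℝ) + c * Rec x ≤ x ∧
        (∀ q : ℕ, q.Prime → m ≤ q → (q : ℝ) ≤ m + c * Rec x → ∃ h ∈ H, q = m + h) ∧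
        c * Real.log K < ((H.filter (fun h => (m + h).Prime)).card : ℝ)}.ncard : ℝ)

/-- THE MAIN THEOREM: prescribed clusters in deserts of record size, with absolute constants.
Proof: from `StmtMM02`. -/
def StmtMM2 : Prop := ∃ c : ℝ, 0 < c ∧ ∀ K : ℕ, 1 ≤ K → ∃ X : ℝ, ∀ x : ℝ, X ≤ x →
  ∀ H : Finset ℕ, H.card = K →
  (∀ h ∈ H, (h : ℝ) ≤ c * (Real.log x * Real.log (Real.log x) ^ 2 *
    Real.log (Real.log (Real.log (Real.log x))) / Real.log (Real.log (Real.log x)) ^ 2)) →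
  (∀ l : ℕ, l.Prime → ∃ a : ℕ, ∀ h ∈ H, ¬ h ≡ a [MOD l]) →
  x ^ (1 - 1 / Real.log (Real.log x) ^ 2)
    ≤ ({m : ℕ | (m : ℝ) ≤ x ∧
        (∀ q : ℕ, q.Prime → m ≤ q → (q : ℝ) ≤ m + c * (Real.log x * Real.log (Real.log x) ^ 2 *
          Real.log (Real.log (Real.log (Real.log x))) / Real.log (Real.log (Real.log x)) ^ 2) →
          ∃ h ∈ H, q = m + h) ∧
        c * Real.log K < ((H.filter (fun h => (m + h).Prime)).card : ℝ)}.ncard : ℝ)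

/-- PACKET M20.  The version of `Helper23/MC` follows: given `k` take `K = ⌈exp(k/c)⌉ + 1`, so
`c log K ≥ k`. -/
def StmtM20 : Prop := StmtMM02 → Pool.Agent.Helper23.MC.StmtMM0

/-- PACKET DV2 (may assume `StmtMM02`).  COROLLARY (all scales up to the record, with explicit
dependence on `k`).
Proof.  `StmtMM02` (constant `c`), `K = ⌈exp((k+1)/c)⌉ + 2`, so `c log K ≥ k`.  `H_d = {4 i² d : i < K}`:
modulo a prime `l ∣ 2 d` all elements are `0` (take `a = 1`), modulo a prime `l ∤ 2 d` they are `d`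
times a square, so `a = d r`, `r` a nonsquare modulo `l`, is not hit (`d` is a unit modulo `l`;
`FiniteField`/`ZMod` nonsquares exist for odd `l`, or count: at most `(l+1)/2 < l` squares).  So `H_d` is
admissible, it has `K` elements, and `4 K² d ≤ c Rec x`.  For every `m` of the set let `p n` be the
smallest prime of `m + H_d`; all primes of `[m, m + c Rec x]` are in `m + H_d` and there are more
than `k`, so `p n, .., p (n+k) ∈ m + H_d`, the differences are divisible by `d`, and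
`p (n+k) - p n ≤ 4 K² d`, `p (n+k) ≤ m + c Rec x ≤ x`.  A given `n` comes from at most `K` of the
`m` (`m = p n - h`). -/
def StmtDV2 : Prop := ∃ c C : ℝ, 0 < c ∧ ∀ k : ℕ, ∃ X : ℝ, ∀ x : ℝ, X ≤ x → ∀ d : ℕ, 1 ≤ d →
  (d : ℝ) ≤ c * Real.exp (-(C * k)) * (Real.log x * Real.log (Real.log x) ^ 2 *
    Real.log (Real.log (Real.log (Real.log x))) / Real.log (Real.log (Real.log x)) ^ 2) →
  x ^ (1 - 1 / Real.log (Real.log x) ^ 2)
    ≤ ({n : ℕ | (Nat.nth Nat.Prime (n + k) : ℝ) ≤ x ∧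
        (Nat.nth Nat.Prime (n + k) : ℝ) ≤ Nat.nth Nat.Prime n + C * Real.exp (C * k) * d ∧
        ∀ i < k, d ∣ Nat.nth Nat.Prime (n + i + 1) - Nat.nth Nat.Prime (n + i)}.ncard : ℝ)

end Pool.Agent.Helper57.MT
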