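import Pool.Agent.Helper57.MT.MainA
import Pool.Agent.Helper74.MC.CBL
import Pool.Agent.Helper32.MC.RT
import Pool.Agent.Helper19.MC.PWA
import Pool.Agent.Helper3.MC.BF

/-!
# Prescribed clusters of primes in deserts of record size: the theorem
-/

set_option autoImplicit false

namespace Pool.Agent.Helper57.MT

open Pool.Agent.Helper23.MC

theorem qCBL : StmtCBL :=
  Pool.Agent.Helper74.MC.cbl Pool.Agent.Helper32.MC.rt Pool.Agent.Helper19.MC.pwa
    Pool.Agent.Helper3.MC.bf

theorem mm02 : StmtMM02 := qMM02 qCBL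

/-- THE MAIN THEOREM -/
theorem main : StmtMM2 := mm2 mm02

end Pool.Agent.Helper57.MT
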