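import Pool.Agent.Helper57.MT.PJ
import Pool.Agent.Helper88.CR.OM
import Pool.Agent.Helper23.MC.FRM2
import Pool.Agent.Helper23.MC.EBA
import Pool.Agent.Helper69.MC.GV
import Pool.Agent.Helper85.MC.TLA
import Pool.Agent.Helper25.MC.TGA
import Pool.Agent.Helper49.MC.SV
import Pool.Agent.Helper64.MC.KV
import Pool.Agent.Helper8.MC.COB
import Pool.Agent.Helper53.MC.CMA
import Pool.Agent.Helper56.MC.SUV
import Pool.Agent.Helper26.MC.ERA
import Pool.Agent.Helper54.MC.LV
import Pool.Agent.Helper44.MC.LVQ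
import Pool.Agent.Helper82.MC.VJ
import Pool.Agent.Helper7.MC.IJ
import Pool.Agent.Helper86.MC.NU
import Pool.Agent.Helper59.MC.NL
import Pool.Agent.Helper46.MC.RNZ
import Pool.Agent.Helper99.MC.AVG
import Pool.Agent.Helper88.MC.PMA
import Pool.Agent.Helper22.MT.TT
import Pool.Agent.Helper76.MT.ZA2
import Pool.Agent.Helper35.MT.SV1
import Pool.Agent.Helper59.MT.ZT
import Pool.Agent.Helper69.MT.ZP
import Pool.Agent.Helper19.MT.ZG
import Pool.Agent.Helper35.MT.ZF
import Pool.Agent.Helper44.MT.ZM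
import Pool.Agent.Helper33.MT.ZN
import Pool.Agent.Helper86.MT.ZS2
import Pool.Agent.Helper48.MT.RCH2
import Pool.Agent.Helper53.MT.NL1
import Pool.Agent.Helper13.MT.MT2
import Pool.Agent.Helper36.MT.MM02

/-!
# Prescribed clusters of primes in deserts of record size, with absolute constants: assembly
-/

set_option autoImplicit false

open Finset Filter Topology

open scoped Classical

namespace Pool.Agent.Helper57.MT

open Pool.Agent.Helper23.MC

theorem qTGA : StmtTGA := Pool.Agent.Helper25.MC.tga Pool.Agent.Helper85.MC.tla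

theorem qGV : StmtGV := Pool.Agent.Helper69.MC.gv

theorem qLV : StmtLV := Pool.Agent.Helper54.MC.lv qGV (Pool.Agent.Helper8.MC.cob qTGA)
  Pool.Agent.Helper53.MC.cma (Pool.Agent.Helper26.MC.era Pool.Agent.Helper23.MC.eba)

theorem qZS2 : StmtZS2 := Pool.Agent.Helper86.MT.zs2
  (Pool.Agent.Helper76.MT.za2 Pool.Agent.Helper22.MT.tt) Pool.Agent.Helper59.MT.zt
  (Pool.Agent.Helper69.MT.zp Pool.Agent.Helper35.MT.sv1) Pool.Agent.Helper19.MT.zg
  Pool.Agent.Helper35.MT.zf (Pool.Agent.Helper44.MT.zm Pool.Agent.Helper35.MT.sv1)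
  Pool.Agent.Helper33.MT.zn Pool.Agent.Helper35.MT.sv1

theorem qRCH2 : StmtRCH2 := Pool.Agent.Helper48.MT.rch2 Pool.Agent.Helper46.MC.rnz
  Pool.Agent.Helper99.MC.avg qZS2 Pool.Agent.Helper35.MT.sv1

theorem qMT2 : StmtMT2 := Pool.Agent.Helper13.MT.mt2 Pool.Agent.Helper7.MC.ij
  Pool.Agent.Helper86.MC.nu Pool.Agent.Helper59.MC.nl Pool.Agent.Helper53.MT.nl1

theorem qFRM2 (hCBL : StmtCBL) : StmtFRM2 := Pool.Agent.Helper23.MC.frm2
  (Pool.Agent.Helper49.MC.sv qTGA qGV) (Pool.Agent.Helper64.MC.kv qTGA qGV)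
  (Pool.Agent.Helper44.MC.lvq qLV hCBL) Pool.Agent.Helper82.MC.vj Pool.Agent.Helper88.MC.pma
  qPJ (Pool.Agent.Helper56.MC.suv qGV) Pool.Agent.Helper88.CR.om_lower qMT2 qRCH2

theorem qMM02 (hCBL : StmtCBL) : StmtMM02 := Pool.Agent.Helper36.MT.mm02 (qFRM2 hCBL)

theorem log_iter {x : ℝ} (hx : Real.exp (Real.exp (Real.exp 1)) ≤ x) :
    1 ≤ Real.log (Real.log (Real.log x)) ∧ 1 ≤ Real.log (Real.log x) ∧ 1 ≤ Real.log x ∧ 1 ≤ x := by
  have h1 : Real.exp (Real.exp 1) ≤ Real.log x := by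
    have := Real.log_le_log (Real.exp_pos _) hx
    rwa [Real.log_exp] at this
  have h2 : Real.exp 1 ≤ Real.log (Real.log x) := by
    have := Real.log_le_log (Real.exp_pos _) h1
    rwa [Real.log_exp] at this
  have h3 : 1 ≤ Real.log (Real.log (Real.log x)) := by
    have := Real.log_le_log (Real.exp_pos _) h2
    rwa [Real.log_exp] at this
  have e1 : (1 : ℝ) ≤ Real.exp 1 := Real.one_le_exp zero_le_one
  have e2 : (1 : ℝ) ≤ Real.exp (Real.exp 1) := Real.one_le_exp (Real.exp_pos _).le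
  have e3 : (1 : ℝ) ≤ Real.exp (Real.exp (Real.exp 1)) := Real.one_le_exp (Real.exp_pos _).le
  exact ⟨h3, e1.trans h2, e2.trans h1, e3.trans hx⟩

theorem rec_nonneg {x : ℝ} (hx : Real.exp (Real.exp (Real.exp 1)) ≤ x) :
    0 ≤ Pool.Agent.Helper88.CR.Rec x := by
  obtain ⟨h1, h2, h3, h4⟩ := log_iter hx
  unfold Pool.Agent.Helper88.CR.Rec
  have : 0 ≤ Real.log (Real.log (Real.log (Real.log x))) := Real.log_nonneg h1
  positivity

/-- the final form -/
theorem mm2 (h : StmtMM02) : StmtMM2 := by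
  obtain ⟨c, hc, h⟩ := h
  refine ⟨c, hc, fun K hK => ?_⟩
  obtain ⟨X, hX⟩ := h K hK
  refine ⟨max X (Real.exp (Real.exp (Real.exp 1))), fun x hx H hH hH1 hH2 => ?_⟩
  have hx1 := (le_max_right _ _).trans hx
  obtain ⟨-, hl2, -, hx0⟩ := log_iter hx1
  have h0 := hX x ((le_max_left _ _).trans hx) H hH hH1 hH2
  have hR := mul_nonneg hc.le (rec_nonneg hx1)
  refine le_trans (Real.rpow_le_rpow_of_exponent_le hx0 ?_) (h0.trans ?_)
  · have h3 : 0 < Real.log (Real.log x) ^ 2 := by positivity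
    have : 1 / (4 * Real.log (Real.log x) ^ 2) ≤ 1 / Real.log (Real.log x) ^ 2 := by
      apply one_div_le_one_div_of_le h3
      linarith
    linarith
  · have hfin : {m : ℕ | (m : ℝ) ≤ x ∧
        (∀ q : ℕ, q.Prime → m ≤ q → (q : ℝ) ≤ m + c * (Real.log x * Real.log (Real.log x) ^ 2 *
          Real.log (Real.log (Real.log (Real.log x))) / Real.log (Real.log (Real.log x)) ^ 2) →
          ∃ h ∈ H, q = m + h) ∧
        c * Real.log K < ((H.filter (fun h => (m + h).Prime)).card : ℝ)}.Finite := by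
      refine (Set.finite_Iic ⌊x⌋₊).subset fun m hm => ?_
      exact Nat.le_floor hm.1
    have hsub : {m : ℕ | (m : ℝ) + c * Pool.Agent.Helper88.CR.Rec x ≤ x ∧
        (∀ q : ℕ, q.Prime → m ≤ q → (q : ℝ) ≤ m + c * Pool.Agent.Helper88.CR.Rec x →
          ∃ h ∈ H, q = m + h) ∧
        c * Real.log K < ((H.filter (fun h => (m + h).Prime)).card : ℝ)} ⊆
        {m : ℕ | (m : ℝ) ≤ x ∧
        (∀ q : ℕ, q.Prime → m ≤ q → (q : ℝ) ≤ m + c * (Real.log x * Real.log (Real.log x) ^ 2 *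
          Real.log (Real.log (Real.log (Real.log x))) / Real.log (Real.log (Real.log x)) ^ 2) →
          ∃ h ∈ H, q = m + h) ∧
        c * Real.log K < ((H.filter (fun h => (m + h).Prime)).card : ℝ)} :=
      fun m hm => ⟨by linarith [hm.1], hm.2⟩
    exact_mod_cast Set.ncard_le_ncard hsub hfin

end Pool.Agent.Helper57.MT
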