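import Pool.Agent.Helper11.CR.F0
import Pool.Agent.Helper67.CR.FW
import Pool.Agent.Helper94.CR.BK
import Pool.Agent.Helper40.CR.SC
import Pool.Agent.Helper55.CR.ZB
import Pool.Agent.Helper77.CR.CH
import Pool.Agent.Helper8.CR.AL
import Pool.Agent.Helper8.CR.PF
import Pool.Agent.Helper8.CR.P4
import Pool.Agent.Helper58.CR.P2
import Pool.Agent.Helper47.CR.LO
import Pool.Agent.Helper8.CR.RM
import Pool.Agent.Helper42.CR.PS
import Pool.Agent.Helper61.CR.FS
import Pool.Agent.Helper61.CR.TV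
import Pool.Agent.Helper61.CR.MT
import Pool.Agent.Helper61.CR.CY
import Pool.Agent.Helper39.CR.PX
import Pool.Agent.Helper80.CR.PJ

/-! # The number of primes in a class, from `Pool/Agent/Helper88/CR/MainA.lean` -/

set_option autoImplicit false

namespace Pool.Agent.Helper57.MT

open Pool.Agent.Helper88.CR

theorem qSC : StmtSC :=
  Pool.Agent.Helper40.CR.sc (Pool.Agent.Helper94.CR.bk (Pool.Agent.Helper67.CR.fw
    Pool.Agent.Helper11.CR.f0))

theorem qCH : StmtCH := Pool.Agent.Helper77.CR.ch qSC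

theorem qLO : StmtLO :=
  Pool.Agent.Helper47.CR.lo qCH (Pool.Agent.Helper55.CR.zb qSC) Pool.Agent.Helper8.CR.p4
    Pool.Agent.Helper58.CR.p2

theorem qPS : StmtPS :=
  Pool.Agent.Helper42.CR.ps qSC qCH Pool.Agent.Helper8.CR.al Pool.Agent.Helper8.CR.pf
    (Pool.Agent.Helper8.CR.rm qLO)

theorem qPX : StmtPX :=
  Pool.Agent.Helper39.CR.px qPS Pool.Agent.Helper61.CR.fs Pool.Agent.Helper61.CR.tv
    Pool.Agent.Helper61.CR.mt Pool.Agent.Helper61.CR.cy

theorem qPJ : StmtPJ := Pool.Agent.Helper80.CR.pj qPX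

end Pool.Agent.Helper57.MT
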